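import Pool.Agent.Run7.h417.TK.STP

/-! Piece BAD of project TK (MP_cc494f_an). -/

set_option autoImplicit false

open MeasureTheory Set Filter Topology
open scoped ENNReal
open R109.GT

namespace Run7.h608.TK

open Run7.h417.TK.STP

lemma near_part (w : ℕ → ℤ → ℤ) (hw : Sgn w) (n m : ℕ) (x : ℝ) :
    |(2:ℝ) ^ n * tak w x - 2 ^ n * part w (n + m) x| ≤ 1 / 2 ^ m := by
  have hs := split w hw (n + m) x
  have hbd := bound (fun j => w (n + m + j)) (fun c d => hw (n + m + c) d)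
    ((2:ℝ) ^ (n + m) * x)
  have he : (2:ℝ) ^ n * tak w x - 2 ^ n * part w (n + m) x
      = tak (fun j => w (n + m + j)) ((2:ℝ) ^ (n + m) * x) * (1 / 2 ^ m) := by
    rw [hs, pow_add]
    field_simp
    ring
  rw [he, abs_mul, abs_of_pos (by positivity : (0:ℝ) < 1 / 2 ^ m)]
  calc _ ≤ 1 * (1 / (2:ℝ) ^ m) := mul_le_mul_of_nonneg_right hbd (by positivity)
    _ = _ := one_mul _

lemma incr (w : ℕ → ℤ → ℤ) (hw : Sgn w) (n m : ℕ) (i : ℤ) (x y : ℝ)
    (hx : x ∈ Icc ((i : ℝ) / 2 ^ n) ((i + 1 : ℝ) / 2 ^ n))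
    (hy : y ∈ Icc ((i : ℝ) / 2 ^ n) ((i + 1 : ℝ) / 2 ^ n)) (hxy : x ≤ y) :
    |(part w (n + m) y - part w (n + m) x) - slope w n i * (y - x)| ≤ m * (y - x) := by
  have h1 := lip w hw n m x y hxy
  rw [affine w hw n i x hx, affine w hw n i y hy] at h1
  have h2 : (part w (n + m) y - part w (n + m) x) - slope w n i * (y - x) =
      -((part w (n + m) x - (val w n i + slope w n i * ((2:ℝ) ^ n * x - i)) / 2 ^ n) -
        (part w (n + m) y - (val w n i + slope w n i * ((2:ℝ) ^ n * y - i)) / 2 ^ n)) := by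
    field_simp
    ring
  rw [h2, abs_neg]
  exact h1

lemma J_sub (n : ℕ) (i : ℤ) (x : ℝ) (hx : x ∈ J n i) :
    x ∈ Icc ((i : ℝ) / 2 ^ n) ((i + 1 : ℝ) / 2 ^ n) := by
  rw [R109.GT.PC.J_eq_Ico] at hx
  exact ⟨hx.1, hx.2.le⟩

lemma vol_A (w : ℕ → ℤ → ℤ) (hw : Sgn w) (n m : ℕ) (i : ℤ) (a κ : ℝ) (hκ : 0 < κ)
    (hk : κ + m ≤ |(slope w n i : ℝ)|) :
    volume {x : ℝ | x ∈ J n i ∧ a ≤ 2 ^ n * part w (n + m) x ∧ 2 ^ n * part w (n + m) x ≤ a + 1} ≤
      ENNReal.ofReal (1 / 2 ^ n / κ) := by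
  have hp : (0:ℝ) < 2 ^ n := by positivity
  refine (Real.volume_le_diam _).trans (Metric.ediam_le ?_)
  have key : ∀ x ∈ {x : ℝ | x ∈ J n i ∧ a ≤ 2 ^ n * part w (n + m) x ∧
      2 ^ n * part w (n + m) x ≤ a + 1}, ∀ y ∈ {x : ℝ | x ∈ J n i ∧ a ≤ 2 ^ n * part w (n + m) x ∧
      2 ^ n * part w (n + m) x ≤ a + 1}, x ≤ y → y - x ≤ 1 / 2 ^ n / κ := by
    rintro x ⟨hx, hx1, hx2⟩ y ⟨hy, hy1, hy2⟩ hxy
    have h1 := incr w hw n m i x y (J_sub n i x hx) (J_sub n i y hy) hxy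
    have h2 : |part w (n + m) y - part w (n + m) x| ≤ 1 / 2 ^ n := by
      rw [le_div_iff₀ hp, ← abs_of_pos hp, ← abs_mul, abs_le]
      constructor <;> nlinarith
    have h3 : |(slope w n i : ℝ) * (y - x)| ≤ 1 / 2 ^ n + m * (y - x) := by
      have h4 : (slope w n i : ℝ) * (y - x) = (part w (n + m) y - part w (n + m) x) -
        ((part w (n + m) y - part w (n + m) x) - slope w n i * (y - x)) := by ring
      rw [h4]
      exact (abs_sub _ _).trans (add_le_add h2 h1)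
    rw [abs_mul, abs_of_nonneg (sub_nonneg.2 hxy)] at h3
    rw [le_div_iff₀ hκ]
    nlinarith [mul_le_mul_of_nonneg_right hk (sub_nonneg.2 hxy)]
  intro x hx y hy
  rw [edist_dist, Real.dist_eq]
  apply ENNReal.ofReal_le_ofReal
  rcases le_total x y with h | h
  · rw [abs_sub_comm, abs_of_nonneg (sub_nonneg.2 h)]
    exact key x hx y hy h
  · rw [abs_of_nonneg (sub_nonneg.2 h)]
    exact key y hy x hx h

lemma cr_of (w : ℕ → ℤ → ℤ) (hw : Sgn w) (n m : ℕ) (i : ℤ) (x : ℝ) (hx : x ∈ J n i)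
    (hk : (m:ℝ) ≤ |(slope w n i : ℝ)|) (q : ℤ) (h1 : (q:ℝ) < 2 ^ n * part w (n + m) x)
    (h2 : 2 ^ n * part w (n + m) x < q + 1) : Cr w n i q := by
  have hp : (0:ℝ) < 2 ^ n := by positivity
  have hlt : (i : ℝ) / 2 ^ n < (i + 1 : ℝ) / 2 ^ n := by
    apply div_lt_div_of_pos_right _ hp
    linarith
  have hleft : part w (n + m) ((i : ℝ) / 2 ^ n) = val w n i / 2 ^ n := by
    rw [part_dyadic, affine w hw n i _ (left_mem_Icc.mpr hlt.le)]
    congr 1
    field_simp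
    ring
  have hright : part w (n + m) ((i + 1 : ℝ) / 2 ^ n) = (val w n i + slope w n i) / 2 ^ n := by
    have h1 := part_dyadic w n m (i + 1)
    push_cast at h1
    rw [h1, affine w hw n i _ (right_mem_Icc.mpr hlt.le)]
    congr 1
    field_simp
    ring
  have hxI := J_sub n i x hx
  have ha := incr w hw n m i _ x (left_mem_Icc.mpr hlt.le) hxI hxI.1
  have hb := incr w hw n m i x _ hxI (right_mem_Icc.mpr hlt.le) hxI.2
  rw [hleft, abs_le] at ha
  rw [hright, abs_le] at hb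
  have hv : (2:ℝ) ^ n * (val w n i / 2 ^ n) = val w n i := by field_simp
  have hv2 : (2:ℝ) ^ n * ((val w n i + slope w n i) / 2 ^ n) = val w n i + slope w n i := by
    field_simp
  have hd1 : 0 ≤ x - (i:ℝ) / 2 ^ n := sub_nonneg.2 hxI.1
  have hd2 : 0 ≤ ((i:ℝ) + 1) / 2 ^ n - x := sub_nonneg.2 hxI.2
  rcases le_total 0 (slope w n i : ℝ) with hs | hs
  · rw [abs_of_nonneg hs] at hk
    have e1 := mul_le_mul_of_nonneg_right hk hd1
    have e2 := mul_le_mul_of_nonneg_right hk hd2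
    have f1 : (val w n i : ℝ) / 2 ^ n ≤ part w (n + m) x := by linarith [ha.1]
    have f2 : part w (n + m) x ≤ (val w n i + slope w n i) / 2 ^ n := by linarith [hb.1]
    have g1 := mul_le_mul_of_nonneg_left f1 hp.le
    have g2 := mul_le_mul_of_nonneg_left f2 hp.le
    rw [hv] at g1
    rw [hv2] at g2
    left
    constructor
    · have : (val w n i : ℝ) < q + 1 := by linarith
      have : val w n i < q + 1 := by exact_mod_cast this
      omega
    · have : (q:ℝ) < val w n i + slope w n i := by linarith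
      have : q < val w n i + slope w n i := by exact_mod_cast this
      omega
  · rw [abs_of_nonpos hs] at hk
    have e1 := mul_le_mul_of_nonneg_right hk hd1
    have e2 := mul_le_mul_of_nonneg_right hk hd2
    have f1 : part w (n + m) x ≤ (val w n i : ℝ) / 2 ^ n := by linarith [ha.2]
    have f2 : (val w n i + slope w n i) / 2 ^ n ≤ part w (n + m) x := by linarith [hb.2]
    have g1 := mul_le_mul_of_nonneg_left f1 hp.le
    have g2 := mul_le_mul_of_nonneg_left f2 hp.le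
    rw [hv] at g1
    rw [hv2] at g2
    right
    constructor
    · have : (val w n i + slope w n i : ℝ) < q + 1 := by linarith
      have : val w n i + slope w n i < q + 1 := by exact_mod_cast this
      omega
    · have : (q:ℝ) < val w n i := by linarith
      have : q < val w n i := by exact_mod_cast this
      omega

lemma rng_floor (w : ℕ → ℤ → ℤ) (hw : Sgn w) (n : ℕ) (x : ℝ) :
    ⌊(2:ℝ) ^ n * tak w x⌋ ∈ Finset.Icc (-2 ^ n : ℤ) (2 ^ n) := by
  have hp : (0:ℝ) < 2 ^ n := by positivity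
  have h := abs_le.1 (bound w hw x)
  rw [Finset.mem_Icc]
  constructor
  · rw [Int.le_floor]
    push_cast
    nlinarith
  · have : (⌊(2:ℝ) ^ n * tak w x⌋ : ℝ) ≤ 2 ^ n := (Int.floor_le _).trans (by nlinarith)
    exact_mod_cast this

lemma rng_round (w : ℕ → ℤ → ℤ) (hw : Sgn w) (n : ℕ) (x : ℝ) :
    round ((2:ℝ) ^ n * tak w x) ∈ Finset.Icc (-2 ^ n : ℤ) (2 ^ n) := by
  have hp : (0:ℝ) < 2 ^ n := by positivity
  have h := abs_le.1 (bound w hw x)
  rw [round_eq, Finset.mem_Icc]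
  constructor
  · rw [Int.le_floor]
    push_cast
    nlinarith
  · have h1 : (⌊(2:ℝ) ^ n * tak w x + 1 / 2⌋ : ℝ) < 2 ^ n + 1 :=
      lt_of_le_of_lt (Int.floor_le _) (by nlinarith)
    have h2 : ⌊(2:ℝ) ^ n * tak w x + 1 / 2⌋ < 2 ^ n + 1 := by exact_mod_cast h1
    omega

lemma card_rng (n : ℕ) : (((Finset.Icc (-2 ^ n : ℤ) (2 ^ n)).card : ℕ) : ℝ) ≤ 3 * 2 ^ n := by
  rw [Int.card_Icc]
  have h1 : (1:ℤ) ≤ 2 ^ n := one_le_pow₀ (by norm_num)
  have h2 : (((2:ℤ) ^ n + 1 - -2 ^ n).toNat : ℝ) = (((2:ℤ) ^ n + 1 - -2 ^ n : ℤ) : ℝ) := by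
    have : (((2:ℤ) ^ n + 1 - -2 ^ n).toNat : ℤ) = (2:ℤ) ^ n + 1 - -2 ^ n :=
      Int.toNat_of_nonneg (by linarith)
    exact_mod_cast this
  rw [h2]
  push_cast
  have h3 : (1:ℝ) ≤ 2 ^ n := one_le_pow₀ (by norm_num)
  linarith

lemma near_int (w : ℕ → ℤ → ℤ) (D : ℝ) (m n : ℕ) (hw : Sgn w) (hB : Bd w D) (hD : 0 ≤ D) :
    volume {x : ℝ | x ∈ Ico (0:ℝ) 1 ∧
      |(2:ℝ) ^ n * tak w x - round ((2:ℝ) ^ n * tak w x)| ≤ 2 / 2 ^ m} ≤
      ENNReal.ofReal (12 * D / 2 ^ m) := by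
  have hp : (0:ℝ) < 2 ^ n := by positivity
  have hpm : (0:ℝ) < 2 ^ m := by positivity
  set U : Set ℝ := ⋃ j ∈ Finset.Icc (-2 ^ n : ℤ) (2 ^ n),
    Icc (((j:ℝ) - 2 / 2 ^ m) / 2 ^ n) (((j:ℝ) + 2 / 2 ^ m) / 2 ^ n) with hU
  have hUm : MeasurableSet U := Finset.measurableSet_biUnion _ fun _ _ => measurableSet_Icc
  have h1 : {x : ℝ | x ∈ Ico (0:ℝ) 1 ∧
      |(2:ℝ) ^ n * tak w x - round ((2:ℝ) ^ n * tak w x)| ≤ 2 / 2 ^ m} ⊆
      tak w ⁻¹' U ∩ Ico 0 1 := by
    rintro x ⟨hx, hx1⟩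
    refine ⟨?_, hx⟩
    rw [mem_preimage, hU, mem_iUnion₂]
    refine ⟨_, rng_round w hw n x, ?_⟩
    rw [abs_le] at hx1
    constructor
    · rw [div_le_iff₀ hp]
      linarith [hx1.1]
    · rw [le_div_iff₀ hp]
      linarith [hx1.2]
  have h2 : occ w U = volume (tak w ⁻¹' U ∩ Ico 0 1) := by
    rw [occ, Measure.map_apply (cont w hw).measurable hUm,
      Measure.restrict_apply ((cont w hw).measurable hUm)]
  refine (measure_mono h1).trans ?_
  rw [← h2]
  refine (hB U).trans ?_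
  rw [Measure.smul_apply, smul_eq_mul]
  have h3 : volume U ≤ ENNReal.ofReal (12 / 2 ^ m) := by
    refine (measure_biUnion_finset_le _ _).trans ?_
    have h4 : ∀ j ∈ Finset.Icc (-2 ^ n : ℤ) (2 ^ n),
        volume (Icc (((j:ℝ) - 2 / 2 ^ m) / 2 ^ n) (((j:ℝ) + 2 / 2 ^ m) / 2 ^ n)) ≤
          ENNReal.ofReal (4 / 2 ^ m / 2 ^ n) := by
      intro j _
      rw [Real.volume_Icc]
      apply ENNReal.ofReal_le_ofReal
      apply le_of_eq
      field_simp
      ring
    refine (Finset.sum_le_sum h4).trans ?_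
    rw [Finset.sum_const, nsmul_eq_mul, ← ENNReal.ofReal_natCast, ← ENNReal.ofReal_mul (by positivity)]
    apply ENNReal.ofReal_le_ofReal
    calc _ ≤ (3 * 2 ^ n) * ((4:ℝ) / 2 ^ m / 2 ^ n) :=
          mul_le_mul_of_nonneg_right (card_rng n) (by positivity)
      _ = 12 / 2 ^ m := by
          field_simp
          norm_num
  calc _ ≤ ENNReal.ofReal D * ENNReal.ofReal (12 / 2 ^ m) := by gcongr
    _ = ENNReal.ofReal (12 * D / 2 ^ m) := by
        rw [← ENNReal.ofReal_mul hD]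
        congr 1
        ring

theorem t_BAD : S_BAD := by
  intro w D c m n hw hB hD hc hn hmn
  classical
  have hp : (0:ℝ) < 2 ^ n := by positivity
  have hpm : (0:ℝ) < 2 ^ m := by positivity
  have hn' : (1:ℝ) ≤ n := by exact_mod_cast hn
  have hsq : 0 < √(n:ℝ) := Real.sqrt_pos.2 (by linarith)
  set B1 : Set ℝ := {x : ℝ | x ∈ Ico (0:ℝ) 1 ∧
      |(2:ℝ) ^ n * tak w x - round ((2:ℝ) ^ n * tak w x)| ≤ 2 / 2 ^ m} with hB1
  set F : ℤ → Finset ℤ := fun q => (ivs n).filter fun i => Cr w n i q ∧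
    (n:ℤ) ≤ 4 * (slope w n i) ^ 2 ∧ (Nc w n q : ℝ) < c * √n with hF
  set A : ℤ → ℤ → Set ℝ := fun q i => {x : ℝ | x ∈ J n i ∧ (q:ℝ) ≤ 2 ^ n * part w (n + m) x ∧
    2 ^ n * part w (n + m) x ≤ q + 1} with hA
  set B2 : Set ℝ := ⋃ q ∈ Finset.Icc (-2 ^ n : ℤ) (2 ^ n), ⋃ i ∈ F q, A q i with hB2
  have h4m : 4 * (m:ℝ) ≤ √(n:ℝ) := by
    apply Real.le_sqrt_of_sq_le
    have : (16:ℝ) * (m:ℝ) ^ 2 ≤ n := by exact_mod_cast hmn
    nlinarith
  have hslope : ∀ i : ℤ, (n:ℤ) ≤ 4 * (slope w n i) ^ 2 →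
      √(n:ℝ) / 4 + m ≤ |(slope w n i : ℝ)| := by
    intro i hi
    have h1 : (n:ℝ) ≤ (2 * |(slope w n i : ℝ)|) ^ 2 := by
      have : (n:ℝ) ≤ 4 * (slope w n i : ℝ) ^ 2 := by exact_mod_cast hi
      rw [mul_pow, sq_abs]
      linarith
    have h2 : √(n:ℝ) ≤ 2 * |(slope w n i : ℝ)| := by
      rw [Real.sqrt_le_left (by positivity)]
      exact h1
    linarith
  have hcov : {x : ℝ | x ∈ Ico (0:ℝ) 1 ∧ (n:ℤ) ≤ 4 * (S w n x) ^ 2 ∧
    ((Nc w n ⌊(2:ℝ) ^ n * tak w x⌋ : ℝ) < c * √n ∨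
      |(2:ℝ) ^ n * tak w x - round ((2:ℝ) ^ n * tak w x)| ≤ 2 / 2 ^ m)} ⊆ B1 ∪ B2 := by
    rintro x ⟨hx, hx1, hx2⟩
    by_cases hr : |(2:ℝ) ^ n * tak w x - round ((2:ℝ) ^ n * tak w x)| ≤ 2 / 2 ^ m
    · left
      exact ⟨hx, hr⟩
    · right
      have hNc : (Nc w n ⌊(2:ℝ) ^ n * tak w x⌋ : ℝ) < c * √n := by
        rcases hx2 with h | h
        · exact h
        · exact absurd h hr
      rw [not_le] at hr
      set v : ℝ := (2:ℝ) ^ n * tak w x with hv
      have hnp := near_part w hw n m x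
      rw [← hv, abs_le] at hnp
      have e1 : (1:ℝ) / 2 ^ m ≤ 2 / 2 ^ m := by
        apply div_le_div_of_nonneg_right _ hpm.le
        norm_num
      have hf1 := Int.floor_le v
      have hf2 := Int.lt_floor_add_one v
      have e2 : 2 / 2 ^ m < v - ⌊v⌋ := by
        have := round_le v ⌊v⌋
        rw [abs_of_nonneg (by linarith : 0 ≤ v - (⌊v⌋:ℝ))] at this
        linarith
      have e3 : 2 / 2 ^ m < ⌊v⌋ + 1 - v := by
        have := round_le v (⌊v⌋ + 1)
        push_cast at this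
        rw [abs_sub_comm v ((⌊v⌋:ℝ) + 1), abs_of_nonneg (by linarith : 0 ≤ (⌊v⌋:ℝ) + 1 - v)] at this
        linarith
      have g1 : (⌊v⌋:ℝ) < 2 ^ n * part w (n + m) x := by linarith [hnp.2]
      have g2 : 2 ^ n * part w (n + m) x < ⌊v⌋ + 1 := by linarith [hnp.1]
      have hxJ : x ∈ J n ⌊(2:ℝ) ^ n * x⌋ := rfl
      have hsl := hslope ⌊(2:ℝ) ^ n * x⌋ hx1
      have hcr := cr_of w hw n m _ x hxJ (by linarith) ⌊v⌋ g1 g2
      rw [hB2, mem_iUnion₂]
      refine ⟨⌊v⌋, rng_floor w hw n x, ?_⟩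
      rw [mem_iUnion₂]
      refine ⟨⌊(2:ℝ) ^ n * x⌋, ?_, hxJ, g1.le, g2.le⟩
      rw [hF, Finset.mem_filter]
      refine ⟨?_, hcr, hx1, hNc⟩
      rw [ivs, Finset.mem_Ico]
      constructor
      · rw [Int.le_floor]
        push_cast
        exact mul_nonneg hp.le hx.1
      · rw [Int.floor_lt]
        push_cast
        nlinarith [hx.2]
  have hvB1 : volume B1 ≤ ENNReal.ofReal (12 * D / 2 ^ m) := near_int w D m n hw hB (by linarith)
  have hvB2 : volume B2 ≤ ENNReal.ofReal (12 * c) := by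
    refine (measure_biUnion_finset_le _ _).trans ?_
    have h1 : ∀ q ∈ Finset.Icc (-2 ^ n : ℤ) (2 ^ n),
        volume (⋃ i ∈ F q, A q i) ≤ ENNReal.ofReal (4 * c / 2 ^ n) := by
      intro q _
      refine (measure_biUnion_finset_le _ _).trans ?_
      have h2 : ∀ i ∈ F q, volume (A q i) ≤ ENNReal.ofReal (1 / 2 ^ n / (√(n:ℝ) / 4)) := by
        intro i hi
        rw [hF, Finset.mem_filter] at hi
        exact vol_A w hw n m i q (√(n:ℝ) / 4) (by positivity) (hslope i hi.2.2.1)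
      refine (Finset.sum_le_sum h2).trans ?_
      rw [Finset.sum_const, nsmul_eq_mul, ← ENNReal.ofReal_natCast,
        ← ENNReal.ofReal_mul (by positivity)]
      apply ENNReal.ofReal_le_ofReal
      have h3 : ((F q).card : ℝ) ≤ c * √n := by
        rcases (F q).eq_empty_or_nonempty with he | ⟨i, hi⟩
        · rw [he]
          simp only [Finset.card_empty, Nat.cast_zero]
          positivity
        · have hlt : (Nc w n q : ℝ) < c * √n := by
            rw [hF, Finset.mem_filter] at hi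
            exact hi.2.2.2
          have hle : ((F q).card : ℝ) ≤ Nc w n q := by
            have : (F q).card ≤ Nc w n q := by
              unfold Nc
              apply Finset.card_le_card
              intro i hi
              rw [hF, Finset.mem_filter] at hi
              rw [Finset.mem_filter]
              exact ⟨hi.1, hi.2.1⟩
            exact_mod_cast this
          linarith
      calc _ ≤ (c * √n) * (1 / 2 ^ n / (√(n:ℝ) / 4)) :=
            mul_le_mul_of_nonneg_right h3 (by positivity)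
        _ = 4 * c / 2 ^ n := by
            field_simp
    refine (Finset.sum_le_sum h1).trans ?_
    rw [Finset.sum_const, nsmul_eq_mul, ← ENNReal.ofReal_natCast,
      ← ENNReal.ofReal_mul (by positivity)]
    apply ENNReal.ofReal_le_ofReal
    calc _ ≤ (3 * 2 ^ n) * (4 * c / 2 ^ n) :=
          mul_le_mul_of_nonneg_right (card_rng n) (by positivity)
      _ = 12 * c := by
          field_simp
          norm_num
  refine (measure_mono hcov).trans ((measure_union_le _ _).trans ((add_le_add hvB1 hvB2).trans ?_))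
  have hD0 : 0 ≤ D := by linarith
  rw [← ENNReal.ofReal_add (by positivity) (by positivity)]
  apply ENNReal.ofReal_le_ofReal
  have h5 : 12 * D / 2 ^ m ≤ 16 * D / 2 ^ m := by
    apply div_le_div_of_nonneg_right _ hpm.le
    linarith
  linarith

end Run7.h608.TK
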