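import Pool.Agent.Run7.h608.TK.Iface
import Mathlib.Probability.CDF

set_option autoImplicit false

open MeasureTheory Set Filter Topology
open scoped ENNReal
open R109.GT

namespace Run7.h608.TK

theorem occ_prob (w : ℕ → ℤ → ℤ) (hw : Sgn w) : IsProbabilityMeasure (occ w) := by
  constructor
  have hm : Measurable (tak w) := (cont w hw).measurable
  rw [occ, Measure.map_apply hm MeasurableSet.univ]
  simp

theorem t_BDC : S_BDC := by
  intro v D hv hD h
  have := occ_prob v hv
  -- real intervals
  have h1 : ∀ a b : ℝ, a < b → occ v (Ioc a b) ≤ ENNReal.ofReal (D * (b - a)) := by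
    intro a b hab
    -- rational sequences from outside
    refine ENNReal.le_of_forall_pos_le_add ?_
    intro ε hε _
    obtain ⟨δ, hδ, hδ2⟩ : ∃ δ : ℝ, 0 < δ ∧ D * (2 * δ) ≤ ε := by
      have h3 : (0:ℝ) < ε := hε
      refine ⟨ε / (2 * (D + 1)), by positivity, ?_⟩
      have : D * (2 * ((ε:ℝ) / (2 * (D + 1)))) = ε * (D / (D + 1)) := by
        field_simp
      rw [this]
      have h2 : D / (D + 1) ≤ 1 := by
        rw [div_le_one (by positivity)]
        linarith
      nlinarith
    obtain ⟨p, hp1, hp2⟩ := exists_rat_btwn (show a - δ < a by linarith)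
    obtain ⟨q, hq1, hq2⟩ := exists_rat_btwn (show b < b + δ by linarith)
    have hpq : p < q := by
      have : (p:ℝ) < q := by linarith
      exact_mod_cast this
    have hsub : Ioc a b ⊆ Ioo (p:ℝ) q := fun x hx => ⟨hp2.trans hx.1, lt_of_le_of_lt hx.2 hq1⟩
    refine (measure_mono hsub).trans ((h p q hpq).trans ?_)
    have h4 : ENNReal.ofReal (D * (b - a)) + (ε : ℝ≥0∞) = ENNReal.ofReal (D * (b - a) + ε) := by
      have h6 : 0 ≤ D * (b - a) := mul_nonneg hD (by linarith)
      rw [ENNReal.ofReal_add h6 (NNReal.coe_nonneg ε), ENNReal.ofReal_coe_nnreal]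
    rw [h4]
    apply ENNReal.ofReal_le_ofReal
    have h5 : D * ((q:ℝ) - p) ≤ D * (b - a + 2 * δ) := mul_le_mul_of_nonneg_left (by linarith) hD
    linarith
  set F := ProbabilityTheory.cdf (occ v) with hF
  have hFm : ∀ a b : ℝ, occ v (Ioc a b) = ENNReal.ofReal (F b - F a) := by
    intro a b
    rw [← StieltjesFunction.measure_Ioc, hF, ProbabilityTheory.measure_cdf]
  have hFle : ∀ a b : ℝ, a ≤ b → F b - F a ≤ D * (b - a) := by
    intro a b hab
    rcases hab.eq_or_lt with rfl | hab
    · simp
    · have := h1 a b hab
      rw [hFm] at this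
      exact (ENNReal.ofReal_le_ofReal_iff (mul_nonneg hD (by linarith))).1 this
  let G : StieltjesFunction ℝ :=
    { toFun := fun x => D * x - F x
      mono' := by
        intro a b hab
        have := hFle a b hab
        show D * a - F a ≤ D * b - F b
        linarith
      right_continuous' := by
        intro x
        exact (continuous_const.mul continuous_id).continuousWithinAt.sub (F.right_continuous x) }
  have hG : ∀ x, G x = D * x - F x := fun _ => rfl
  have hsum : ENNReal.ofReal D • (volume : Measure ℝ) = G.measure + occ v := by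
    refine Measure.ext_of_Ioc' _ _ ?_ ?_
    · intro a b hab
      rw [Measure.smul_apply, Real.volume_Ioc, smul_eq_mul]
      exact ENNReal.mul_ne_top ENNReal.ofReal_ne_top ENNReal.ofReal_ne_top
    intro a b hab
    rw [Measure.add_apply, StieltjesFunction.measure_Ioc, hFm, Measure.smul_apply, Real.volume_Ioc,
      smul_eq_mul, ← ENNReal.ofReal_mul hD, hG, hG, ← ENNReal.ofReal_add]
    · congr 1
      ring
    · have := hFle a b hab.le
      linarith
    · have := F.mono hab.le
      linarith
  unfold Bd
  rw [hsum]
  exact Measure.le_add_left le_rfl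

end Run7.h608.TK
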