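import Pool.Agent.Run7.h608.TK.Iface

set_option autoImplicit false

open MeasureTheory Set Filter Topology
open scoped ENNReal
open R109.GT

namespace Run7.h608.TK

theorem t_FIN (hDIF : S_DIF) (hEXT : S_EXT) (hGOOD : S_GOOD) (hVOL : S_VOL) (hFY : S_FY) :
    S_FIN := by
  intro w0 hw0
  by_contra hne
  obtain ⟨D0, hD0, hE⟩ := hEXT (hDIF w0 hw0 hne)
  obtain ⟨hD0p, ⟨w, hw, hB⟩, -⟩ := id hE
  obtain ⟨c, hc, m, L, n1, hL, hG⟩ := hGOOD D0 hD0
  have hLr : (1:ℝ) ≤ L := by exact_mod_cast hL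
  -- choice of A
  obtain ⟨A, hA⟩ : ∃ A : ℝ, A = 512 * D0 * L / c := ⟨_, rfl⟩
  have hAp : 0 < A := by rw [hA]; positivity
  obtain ⟨n2, hF⟩ := hFY D0 hE w hw hB c A m L hc hAp hL
  have h1 := hG w hw hB (max n1 n2) (le_max_left _ _)
  have h2 := hF (max n1 n2) (le_max_right _ _)
  have h3 := hVOL w D0 hw hD0p hB (max n1 n2 + m) (L * max n1 n2) (c * √(max n1 n2 : ℕ))
  have h4 : ENNReal.ofReal (1 / 8) * ENNReal.ofReal (1 / 16) ≤
      ENNReal.ofReal D0 * ENNReal.ofReal (2 * L / (c * A)) :=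
    (mul_le_mul_right h1 _).trans (h3.trans (mul_le_mul_right h2 _))
  rw [← ENNReal.ofReal_mul (by norm_num), ← ENNReal.ofReal_mul hD0p.le] at h4
  have h5 : D0 * (2 * L / (c * A)) = 1 / 256 := by
    rw [hA]
    field_simp
    norm_num
  rw [h5, ENNReal.ofReal_le_ofReal_iff (by norm_num)] at h4
  norm_num at h4

end Run7.h608.TK
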