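import Pool.Agent.Run7.h608.TK.Iface

set_option autoImplicit false

open MeasureTheory Set Filter Topology
open scoped ENNReal
open R109.GT

namespace Run7.h608.TK

/-- the part of the vertical axis below the chord -/
def Ech (w : ℕ → ℤ → ℤ) (M : ℕ) (i : ℤ) : Set ℝ :=
  Icc ((min (val w M i) (val w M i + R109.GT.slope w M i) : ℤ) / (2:ℝ) ^ M)
    ((max (val w M i) (val w M i + R109.GT.slope w M i) : ℤ) / (2:ℝ) ^ M)

theorem vol_Ech (w : ℕ → ℤ → ℤ) (M : ℕ) (i : ℤ) :
    volume (Ech w M i) = ENNReal.ofReal (|(R109.GT.slope w M i : ℝ)| / 2 ^ M) := by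
  unfold Ech
  rw [Real.volume_Icc, ← sub_div]
  congr 2
  rcases le_total 0 (R109.GT.slope w M i) with h | h
  · rw [min_eq_left (by linarith), max_eq_right (by linarith)]
    push_cast
    rw [abs_of_nonneg (by exact_mod_cast h)]
    ring
  · rw [min_eq_right (by linarith), max_eq_left (by linarith)]
    push_cast
    rw [abs_of_nonpos (by exact_mod_cast h)]
    ring

theorem mem_Ech (w : ℕ → ℤ → ℤ) (M : ℕ) (i q : ℤ) (y : ℝ) (h : Cr w M i q)
    (h1 : (q:ℝ) ≤ 2 ^ M * y) (h2 : 2 ^ M * y ≤ q + 1) : y ∈ Ech w M i := by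
  have hp : (0:ℝ) < 2 ^ M := by positivity
  unfold Ech
  rw [mem_Icc, div_le_iff₀ hp, le_div_iff₀ hp]
  have hmin : min (val w M i) (val w M i + R109.GT.slope w M i) ≤ q := by
    rcases h with h | h
    · exact (min_le_left _ _).trans h.1
    · exact (min_le_right _ _).trans h.1
  have hmax : q + 1 ≤ max (val w M i) (val w M i + R109.GT.slope w M i) := by
    rcases h with h | h
    · exact h.2.trans (le_max_right _ _)
    · exact h.2.trans (le_max_left _ _)
  have hmin' : ((min (val w M i) (val w M i + R109.GT.slope w M i) : ℤ) : ℝ) ≤ q := by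
    exact_mod_cast hmin
  have hmax' : (q:ℝ) + 1 ≤ ((max (val w M i) (val w M i + R109.GT.slope w M i) : ℤ) : ℝ) := by
    exact_mod_cast hmax
  constructor <;> nlinarith

theorem div_ivs {s m : ℕ} {i i' : ℤ} (h : i' / 2 ^ m = i) (hi : i ∈ ivs s) : i' ∈ ivs (s + m) := by
  unfold ivs at *
  rw [Finset.mem_Ico] at *
  have hp : (0:ℤ) < 2 ^ m := by positivity
  constructor
  · by_contra hneg
    push Not at hneg
    have := Int.ediv_neg_of_neg_of_pos hneg hp
    omega
  · have h1 : i' < (i + 1) * 2 ^ m := by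
      have := Int.lt_ediv_add_one_mul_self i' hp
      rwa [h] at this
    have h2 : (i + 1) * 2 ^ m ≤ 2 ^ s * 2 ^ m := by
      have : i + 1 ≤ 2 ^ s := by omega
      exact mul_le_mul_of_nonneg_right this hp.le
    rw [pow_add]
    exact lt_of_lt_of_le h1 h2

open Classical in
/-- the intervals of level `M` with a large slope on the way -/
noncomputable def Tl (w : ℕ → ℤ → ℤ) (M : ℕ) (l : ℝ) : Finset ℤ :=
  (ivs M).filter (fun i => ∃ s, s ≤ M ∧ l ≤ |(R109.GT.slope w s (i / 2 ^ (M - s)) : ℝ)|)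

/-- number of chords of `Tl` over `y` -/
noncomputable def Fy (w : ℕ → ℤ → ℤ) (M : ℕ) (l : ℝ) (y : ℝ) : ℝ≥0∞ :=
  ∑ i ∈ Tl w M l, (Ech w M i).indicator 1 y

theorem lint_Fy (w : ℕ → ℤ → ℤ) (M : ℕ) (l : ℝ) :
    ∫⁻ y, Fy w M l y = ENNReal.ofReal ((∑ i ∈ Tl w M l, |(R109.GT.slope w M i : ℝ)|) / 2 ^ M) := by
  unfold Fy
  have hm : ∀ i : ℤ, MeasurableSet (Ech w M i) := fun i => measurableSet_Icc
  rw [lintegral_finsetSum _ (fun i _ => (measurable_one.indicator (hm i)))]
  rw [Finset.sum_div, ENNReal.ofReal_sum_of_nonneg (fun i _ => by positivity)]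
  refine Finset.sum_congr rfl fun i _ => ?_
  rw [lintegral_indicator_one (hm i), vol_Ech]

theorem Fy_eq (w : ℕ → ℤ → ℤ) (M : ℕ) (l : ℝ) (y : ℝ) : Fy w M l y =
    (open Classical in (((Tl w M l).filter (fun i => y ∈ Ech w M i)).card : ℝ≥0∞)) := by
  classical
  unfold Fy
  rw [Finset.card_filter]
  push_cast
  refine Finset.sum_congr rfl fun i _ => ?_
  by_cases h : y ∈ Ech w M i
  · rw [indicator_of_mem h, if_pos h]; rfl
  · rw [indicator_of_notMem h, if_neg h]

/-- the counting part -/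
theorem point (hDSC : S_DSC) (w : ℕ → ℤ → ℤ) (hw : Sgn w) (M s K : ℕ) (q : ℤ) (l B C R y : ℝ)
    (hsM : s ≤ M) (hl : 0 < l) (hq : ⌊(2:ℝ) ^ s * y⌋ = q)
    (hR : R ≤ (Nc w s q : ℝ))
    (h1 : (((ivs s).filter (fun i => Cr w s i q ∧ |R109.GT.slope w s i| ≤ (K:ℤ))).card : ℝ) ≤ B)
    (h2 : ∑ i' ∈ (ivs s).filter (fun i' => Cr w s i' q ∧ (K:ℤ) < |R109.GT.slope w s i'|),
      1 / |(R109.GT.slope w s i' : ℝ)| ≤ C / l) :
    ENNReal.ofReal (R - B - C) ≤ Fy w M l y := by
  classical
  obtain ⟨m, rfl⟩ := Nat.exists_eq_add_of_le hsM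
  set P := (ivs s).filter (fun i => Cr w s i q) with hP
  set P1 := (ivs s).filter (fun i => Cr w s i q ∧ |R109.GT.slope w s i| ≤ (K:ℤ)) with hP1
  set P2 := (ivs s).filter (fun i => (Cr w s i q ∧ (K:ℤ) < |R109.GT.slope w s i|) ∧
    |(R109.GT.slope w s i : ℝ)| < l) with hP2
  set P3 := (ivs s).filter (fun i => Cr w s i q ∧ l ≤ |(R109.GT.slope w s i : ℝ)|) with hP3
  have hsub : P ⊆ P1 ∪ (P2 ∪ P3) := by
    intro i hi
    rw [hP, Finset.mem_filter] at hi
    rw [Finset.mem_union, Finset.mem_union, hP1, hP2, hP3, Finset.mem_filter, Finset.mem_filter,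
      Finset.mem_filter]
    rcases le_or_gt (|R109.GT.slope w s i|) (K:ℤ) with h | h
    · exact Or.inl ⟨hi.1, hi.2, h⟩
    · rcases lt_or_ge (|(R109.GT.slope w s i : ℝ)|) l with h' | h'
      · exact Or.inr (Or.inl ⟨hi.1, ⟨hi.2, h⟩, h'⟩)
      · exact Or.inr (Or.inr ⟨hi.1, hi.2, h'⟩)
  have hcard : (P.card : ℝ) ≤ P1.card + (P2.card + P3.card) := by
    have := (Finset.card_le_card hsub).trans ((Finset.card_union_le _ _).trans
      (Nat.add_le_add_left (Finset.card_union_le _ _) _))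
    exact_mod_cast this
  have hP2c : (P2.card : ℝ) ≤ C := by
    have e1 : ∑ i ∈ P2, 1 / l ≤ ∑ i' ∈ (ivs s).filter
        (fun i' => Cr w s i' q ∧ (K:ℤ) < |R109.GT.slope w s i'|),
        1 / |(R109.GT.slope w s i' : ℝ)| := by
      have hs2 : P2 ⊆ (ivs s).filter
          (fun i' => Cr w s i' q ∧ (K:ℤ) < |R109.GT.slope w s i'|) := by
        intro i hi
        rw [hP2, Finset.mem_filter] at hi
        rw [Finset.mem_filter]
        exact ⟨hi.1, hi.2.1⟩
      refine le_trans (Finset.sum_le_sum ?_) (Finset.sum_le_sum_of_subset_of_nonneg hs2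
        (fun i _ _ => by positivity))
      intro i hi
      rw [hP2, Finset.mem_filter] at hi
      have hpos : 0 < |(R109.GT.slope w s i : ℝ)| := by
        have h0 : (0:ℤ) < |R109.GT.slope w s i| := lt_of_le_of_lt (by positivity) hi.2.1.2
        exact_mod_cast h0
      exact one_div_le_one_div_of_le hpos hi.2.2.le
    rw [Finset.sum_const, nsmul_eq_mul] at e1
    have e2 := e1.trans h2
    rw [mul_one_div, div_le_div_iff_of_pos_right hl] at e2
    exact e2
  have hPc : R ≤ (P.card : ℝ) := hR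
  have hP3c : R - B - C ≤ (P3.card : ℝ) := by linarith
  -- the injection
  have hfl : ⌊(2:ℝ) ^ (s + m) * y⌋ / 2 ^ m = q := by
    rw [← hq]
    exact (floor_div s m y).symm
  have hinj : P3.card ≤ ((Tl w (s + m) l).filter (fun i => y ∈ Ech w (s + m) i)).card := by
    choose! g hg1 hg2 using fun i (hi : Cr w s i q) =>
      hDSC w hw s m i q ⌊(2:ℝ) ^ (s + m) * y⌋ hi hfl
    refine Finset.card_le_card_of_injOn g ?_ ?_
    · intro i hi
      have hi' : i ∈ P3 := hi
      rw [hP3, Finset.mem_filter] at hi'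
      obtain ⟨hi1, hi2, hi3⟩ := hi'
      rw [Finset.mem_coe, Finset.mem_filter]
      refine ⟨?_, ?_⟩
      · unfold Tl
        rw [Finset.mem_filter]
        refine ⟨div_ivs (hg1 i hi2) hi1, s, by omega, ?_⟩
        rw [show s + m - s = m by omega, hg1 i hi2]
        exact hi3
      · exact mem_Ech w _ _ _ y (hg2 i hi2) (Int.floor_le _) (Int.lt_floor_add_one _).le
    · intro i hi j hj hij
      have hi' : i ∈ P3 := hi
      have hj' : j ∈ P3 := hj
      rw [hP3, Finset.mem_filter] at hi' hj'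
      rw [← hg1 i hi'.2.1, ← hg1 j hj'.2.1, hij]
  rw [Fy_eq]
  have h3 : R - B - C ≤
      (((Tl w (s + m) l).filter (fun i => y ∈ Ech w (s + m) i)).card : ℝ) :=
    hP3c.trans (by exact_mod_cast hinj)
  refine (ENNReal.ofReal_le_ofReal h3).trans (le_of_eq ?_)
  rw [ENNReal.ofReal_natCast]

theorem t_FY (hSTR : S_STR) (hCNT : S_CNT) (hDSC : S_DSC) (hUPR : S_UPR) : S_FY := by
  intro D0 hE w hw hB c A m L hc hA hL
  have hD0 := hE.1
  obtain ⟨K, hK⟩ := hSTR D0 hE w hw hB (c / (4 * A)) (by positivity)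
  obtain ⟨n0, hn0⟩ := exists_nat_gt ((D0 * (2 * K + 5) / (c / 4)) ^ 2)
  refine ⟨n0 + 1, fun n hn => ?_⟩
  have hn1 : (1:ℝ) ≤ n := by
    have : 1 ≤ n := by omega
    exact_mod_cast this
  have hsq : 0 < √(n:ℝ) := Real.sqrt_pos.2 (by linarith)
  have hbig : D0 * (2 * K + 5) ≤ c / 4 * √n := by
    have h1 : D0 * (2 * K + 5) / (c / 4) ≤ √n := by
      apply Real.le_sqrt_of_sq_le
      have : (n0:ℝ) ≤ n := by
        have : n0 ≤ n := by omega
        exact_mod_cast this
      linarith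
    rw [div_le_iff₀ (by positivity)] at h1
    linarith
  set l := A * √n with hl
  have hlp : 0 < l := by positivity
  set M := L * n with hM
  have hsubset : Vs w (n + m) M (c * √n) ⊆
      {y | ENNReal.ofReal (c / 2 * √n) ≤ Fy w M l y} ∪ Dy := by
    rintro y ⟨x, s, hx, hs1, hs2, hS, -, hN, hc1, hc2⟩
    by_cases hy : y ∈ Dy
    · exact Or.inr hy
    left
    have hps : (0:ℝ) < 2 ^ s := by positivity
    set i := ⌊(2:ℝ) ^ s * x⌋ with hi
    have hiv : i ∈ ivs s := by
      unfold ivs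
      rw [Finset.mem_Ico]
      constructor
      · exact Int.floor_nonneg.2 (mul_nonneg hps.le hx.1)
      · rw [Int.floor_lt]
        push_cast
        nlinarith [hx.2]
    have hS' : R109.GT.slope w s i = 0 := hS
    have hlt : 2 ^ s * y < (cell w s i : ℝ) + 1 := by
      refine lt_of_le_of_ne hc2 fun h => hy ?_
      refine ⟨(s, cell w s i + 1), ?_⟩
      change (((cell w s i + 1 : ℤ)) : ℝ) / 2 ^ s = y
      push_cast
      rw [← h]
      field_simp
    have hq : ⌊(2:ℝ) ^ s * y⌋ = cell w s i := by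
      rw [Int.floor_eq_iff]
      exact ⟨hc1, hlt⟩
    have h1 := hCNT w D0 hw hD0.le hB s K (cell w s i)
    have h2 := hK s i hiv hS'
    have h3 := point hDSC w hw M s K (cell w s i) l (D0 * (2 * K + 5)) (c / 4 * √n) (c * √n) y
      hs2 hlp hq hN h1 (h2.trans (le_of_eq (by rw [hl]; field_simp)))
    refine le_trans (ENNReal.ofReal_le_ofReal ?_) h3
    linarith
  have hDy : volume Dy = 0 := (countable_range _).measure_zero _
  have hmarkov : volume {y | ENNReal.ofReal (c / 2 * √n) ≤ Fy w M l y} ≤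
      (∫⁻ y, Fy w M l y) / ENNReal.ofReal (c / 2 * √n) := by
    refine meas_ge_le_lintegral_div ?_ ?_ ENNReal.ofReal_ne_top
    · unfold Fy
      exact (Finset.measurable_sum _ (fun i _ =>
        measurable_one.indicator measurableSet_Icc)).aemeasurable
    · rw [Ne, ENNReal.ofReal_eq_zero, not_le]
      positivity
  have hU := hUPR w hw M l hlp
  have hU' : ∑ i ∈ Tl w M l, |(R109.GT.slope w M i : ℝ)| ≤ 2 ^ M * (M / l) := by
    refine le_trans (le_of_eq ?_) hU
    unfold Tl
    refine Finset.sum_congr ?_ (fun _ _ => rfl)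
    ext i
    simp only [Finset.mem_filter]
  calc volume (Vs w (n + m) M (c * √n))
      ≤ volume ({y | ENNReal.ofReal (c / 2 * √n) ≤ Fy w M l y} ∪ Dy) := measure_mono hsubset
    _ ≤ volume {y | ENNReal.ofReal (c / 2 * √n) ≤ Fy w M l y} + volume Dy := measure_union_le _ _
    _ = volume {y | ENNReal.ofReal (c / 2 * √n) ≤ Fy w M l y} := by rw [hDy, add_zero]
    _ ≤ _ := hmarkov
    _ ≤ ENNReal.ofReal (M / l) / ENNReal.ofReal (c / 2 * √n) := by
        gcongr
        rw [lint_Fy]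
        apply ENNReal.ofReal_le_ofReal
        rw [div_le_iff₀ (by positivity)]
        linarith
    _ = ENNReal.ofReal (2 * L / (c * A)) := by
        rw [← ENNReal.ofReal_div_of_pos (by positivity)]
        congr 1
        rw [hM, hl]
        push_cast
        have hs : √(n:ℝ) * √(n:ℝ) = n := Real.mul_self_sqrt (by positivity)
        field_simp
        nlinarith [hs]

end Run7.h608.TK
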