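import Pool.Agent.Run7.h608.TK.Iface

set_option autoImplicit false

open MeasureTheory Set Filter Topology
open scoped ENNReal
open R109.GT

namespace Run7.h608.TK

/-- the sign array of a family of sign functions which are constant on dyadic intervals -/
noncomputable def arr (ω : ℕ → ℝ → ℝ) : ℕ → ℤ → ℤ := fun n j =>
  if ω n ((j:ℝ) / 2 ^ n) = 1 then 1 else -1

theorem arr_sgn (ω : ℕ → ℝ → ℝ) : Sgn (arr ω) := by
  intro n j
  unfold arr
  split_ifs
  · exact Or.inl rfl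
  · exact Or.inr rfl

theorem res (hFIN : S_FIN) (ω : ℕ → ℝ → ℝ)
    (h1 : ∀ n x, x ∈ Icc (0:ℝ) 1 → ω n x = 1 ∨ ω n x = -1)
    (h2 : ∀ (n j : ℕ), j < 2 ^ n → ∀ x ∈ Ico ((j:ℝ) / 2 ^ n) (((j:ℝ) + 1) / 2 ^ n),
      ω n x = ω n ((j:ℝ) / 2 ^ n)) :
    ∀ᵐ y ∂(volume : Measure ℝ), {x : ℝ | x ∈ Icc (0:ℝ) 1 ∧
      ∑' n : ℕ, ω n x * |2 ^ n * x - round ((2:ℝ) ^ n * x)| / 2 ^ n = y}.Finite := by
  have key : ∀ x ∈ Icc (0:ℝ) 1,
      ∑' n : ℕ, ω n x * |2 ^ n * x - round ((2:ℝ) ^ n * x)| / 2 ^ n = tak (arr ω) x := by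
    intro x hx
    unfold tak
    refine tsum_congr fun n => ?_
    change ω n x * phi (2 ^ n * x) / 2 ^ n = _
    have hp : (0:ℝ) < 2 ^ n := by positivity
    rcases eq_or_lt_of_le hx.2 with rfl | hlt
    · have : phi ((2:ℝ) ^ n * 1) = 0 := by
        unfold phi
        have e : (2:ℝ) ^ n * 1 = (((2:ℤ) ^ n : ℤ) : ℝ) := by push_cast; ring
        rw [e, round_intCast]
        simp
      rw [this]
      simp
    · have h0 : 0 ≤ (2:ℝ) ^ n * x := mul_nonneg hp.le hx.1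
      have hf0 : 0 ≤ ⌊(2:ℝ) ^ n * x⌋ := Int.floor_nonneg.2 h0
      obtain ⟨j, hj⟩ := Int.eq_ofNat_of_zero_le hf0
      have e1 := Int.floor_le ((2:ℝ) ^ n * x)
      have e2 := Int.lt_floor_add_one ((2:ℝ) ^ n * x)
      rw [hj] at e1 e2
      have e1' : (j:ℝ) ≤ 2 ^ n * x := by exact_mod_cast e1
      have e2' : 2 ^ n * x < (j:ℝ) + 1 := by exact_mod_cast e2
      have hj2 : j < 2 ^ n := by
        have : (j:ℝ) < 2 ^ n := by nlinarith
        exact_mod_cast this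
      have hxm : x ∈ Ico ((j:ℝ) / 2 ^ n) (((j:ℝ) + 1) / 2 ^ n) := by
        rw [mem_Ico, div_le_iff₀ hp, lt_div_iff₀ hp]
        constructor <;> nlinarith
      have hw := h2 n j hj2 x hxm
      have hv := h1 n x hx
      rw [hj]
      congr 2
      unfold arr
      have e3 : (((j:ℤ)):ℝ) = (j:ℝ) := by norm_cast
      have e4 : ω n ((((j:ℤ)):ℝ) / 2 ^ n) = ω n x := by rw [hw, e3]
      rcases hv with h | h
      · rw [if_pos (e4.trans h)]
        rw [h]; norm_num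
      · rw [if_neg (by
          intro h3
          have : ω n x = 1 := e4.symm.trans h3
          rw [h] at this
          norm_num at this)]
        rw [h]; norm_num
  have h := ae_finite (arr ω) (arr_sgn ω) (hFIN _ (arr_sgn ω))
  filter_upwards [h] with y hy
  refine hy.subset ?_
  rintro x ⟨hx, hxy⟩
  exact ⟨hx, by rw [← key x hx]; exact hxy⟩

end Run7.h608.TK
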