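import Pool.Agent.Run7.h608.TK.SC
import Pool.Agent.Run7.h608.TK.BDC
import Pool.Agent.Run7.h608.TK.BAD
import Pool.Agent.Run7.h608.TK.FY
import Pool.Agent.Run7.h608.TK.FIN
import Pool.Agent.Run7.h608.TK.RES
import Pool.Agent.Run7.h374.TK.CNT
import Pool.Agent.Run7.h648.TK.CPT
import Pool.Agent.Run7.h688.TK.DIF
import Pool.Agent.Run7.h640.TK.DSC
import Pool.Agent.Run7.h871.TK.UNI
import Pool.Agent.Run7.h799.TK.HIT
import Pool.Agent.Run7.h799.TK.PZ
import Pool.Agent.Run7.h657.TK.NMON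
import Pool.Agent.Run7.h417.TK.STP
import Pool.Agent.Run7.h417.TK.UPI
import Pool.Agent.Run7.h417.TK.UPR
import Pool.Agent.Run7.h480.TK.VOL
import Pool.Agent.Run7.h480.TK.GOOD
import Pool.Agent.Run7.h849.TK.STR

/-! # Project TK: the assembly of all pieces (see `Iface.lean` for the plan of the proof) -/

set_option autoImplicit false

namespace Run7.h608.TK

/-- The images of the sets `Z w` are null sets. -/
theorem t_ALL : S_FIN := by
  have SC := t_SC
  have HER := Run7.h374.TK.t_HER SC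
  have CPT := Run7.h648.TK.t_CPT
  have FAT := Run7.h648.TK.t_FAT
  have BDC := t_BDC
  have HIT := Run7.h799.TK.t_HIT
  have REC := Run7.h374.TK.t_REC HIT
  have DSC := Run7.h640.TK.t_DSC
  have UPR := Run7.h417.TK.t_UPR
  have PZ := Run7.h799.TK.t_PZ
  have UPI := Run7.h417.TK.UPI.t_UPI
  have STP := Run7.h417.TK.STP.t_STP
  have CNT := Run7.h374.TK.t_CNT
  have NMON := Run7.h657.TK.t_NMON DSC
  have EXT := Run7.h648.TK.t_EXT CPT FAT BDC
  have DIF := Run7.h688.TK.t_DIF SC CPT FAT BDC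
  have DEN := Run7.h374.TK.t_DEN SC BDC REC
  have UNI := Pool.Agent.Run7.h871.TK.t_UNI CPT FAT BDC DEN
  have STR := Run7.h849.TK.t_STR SC HER UNI STP
  have GOOD := Run7.h480.TK.t_GOOD HIT PZ t_BAD NMON
  have VOL := Run7.h480.TK.t_VOL UPI
  have FY := t_FY STR CNT DSC UPR
  exact t_FIN DIF EXT GOOD VOL FY

end Run7.h608.TK
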