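import Pool.Agent.R109.GT.DD

/-!
# Project TK: almost every level set of every generalized Takagi function is finite

Page MP_cc494f_an, Q1. The library `Pool.Agent.R109.GT` (starting tree) contains the generalized Takagi
functions `tak w`, the slopes `slope w n i` and (scaled) left end values `val w n i` of the `n`-th
partial sum on the dyadic interval `J n i = [i/2^n, (i+1)/2^n)`, the set `Z w` of the points with slope
`0` at infinitely many levels, and the theorem `ae_finite`: it is enough to prove that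
`tak w '' (Z w ∩ Ico 0 1)` is a null set. That is `S_FIN` below. Every piece is a `Prop`; a piece `X`
is proved by a theorem `t_X : S_X` or `t_X : S_Y → S_X` (the hypotheses which may be used are
named in the comment). All signs, slopes and values are integers.

Plan. `occ w` is the occupation measure of `tak w` on `[0,1)`. If `tak w '' Z w` is not null for some
`w`, Lebesgue differentiation and compactness of the set of sign arrays give `v`, `D` with
`occ v ≤ D • volume` (DIF); let `D0` be the least such `D` (EXT). For the extremal arrays the chords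
which cross the cell of an interval of slope `0` have bounded slopes up to a set of small weight (STR).
But almost all points have many (`c √n`) chords over the cell of the next interval of slope `0` (GOOD),
and only few points have `c √n` chords of slope `≥ A √n` above them (FY). Contradiction (FIN).
-/

set_option autoImplicit false

open MeasureTheory Set Filter Topology
open scoped ENNReal
open R109.GT

namespace Run7.h608.TK

/-- the sign array seen from the dyadic interval `J n i` -/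
def sh (w : ℕ → ℤ → ℤ) (n : ℕ) (i : ℤ) : ℕ → ℤ → ℤ := fun m j => w (n + m) (j + 2 ^ m * i)

/-- the occupation measure of `tak w` on `[0,1)` -/
noncomputable def occ (w : ℕ → ℤ → ℤ) : Measure ℝ := (volume.restrict (Ico (0:ℝ) 1)).map (tak w)

/-- the occupation measure has a density bounded by `D` -/
def Bd (w : ℕ → ℤ → ℤ) (D : ℝ) : Prop := occ w ≤ ENNReal.ofReal D • (volume : Measure ℝ)

/-- `D0` is the least `D` for which there is a sign array with `Bd w D` -/
def Ext (D0 : ℝ) : Prop :=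
  0 < D0 ∧ (∃ w, Sgn w ∧ Bd w D0) ∧ ∀ w D, Sgn w → Bd w D → D0 ≤ D

/-- the dyadic intervals of level `n` in `[0,1)` -/
noncomputable def ivs (n : ℕ) : Finset ℤ := Finset.Ico 0 (2 ^ n)

/-- The chord of the `n`-th partial sum over `J n i` crosses the cell `[q/2^n, (q+1)/2^n]`. -/
def Cr (w : ℕ → ℤ → ℤ) (n : ℕ) (i q : ℤ) : Prop :=
  (val w n i ≤ q ∧ q + 1 ≤ val w n i + slope w n i) ∨
    (val w n i + slope w n i ≤ q ∧ q + 1 ≤ val w n i)

instance (w : ℕ → ℤ → ℤ) (n : ℕ) (i q : ℤ) : Decidable (Cr w n i q) := by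
  unfold Cr; infer_instance

/-- the number of chords of level `n` which cross the cell `q` -/
noncomputable def Nc (w : ℕ → ℤ → ℤ) (n : ℕ) (q : ℤ) : ℕ := ((ivs n).filter fun i => Cr w n i q).card

/-- the cell next to the value of an interval of slope zero, on the side of its sign -/
def cell (w : ℕ → ℤ → ℤ) (n : ℕ) (i : ℤ) : ℤ := if w n i = 1 then val w n i else val w n i - 1

/-- Points of `[0,1)` whose first level `s ≥ n0` of slope zero is `≤ M`, such that the cell of the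
interval of level `s` which contains the point is crossed by at least `r` chords. -/
def Gs (w : ℕ → ℤ → ℤ) (n0 M : ℕ) (r : ℝ) : Set ℝ :=
  {x | x ∈ Ico (0:ℝ) 1 ∧ ∃ s, n0 ≤ s ∧ s ≤ M ∧ S w s x = 0 ∧
    (∀ s', n0 ≤ s' → s' < s → S w s' x ≠ 0) ∧ r ≤ (Nc w s (cell w s ⌊(2:ℝ) ^ s * x⌋) : ℝ)}

/-- The union of the cells of the points of `Gs`. -/
def Vs (w : ℕ → ℤ → ℤ) (n0 M : ℕ) (r : ℝ) : Set ℝ :=
  {y | ∃ x s, x ∈ Ico (0:ℝ) 1 ∧ n0 ≤ s ∧ s ≤ M ∧ S w s x = 0 ∧
    (∀ s', n0 ≤ s' → s' < s → S w s' x ≠ 0) ∧ r ≤ (Nc w s (cell w s ⌊(2:ℝ) ^ s * x⌋) : ℝ) ∧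
    (cell w s ⌊(2:ℝ) ^ s * x⌋ : ℝ) ≤ 2 ^ s * y ∧ 2 ^ s * y ≤ (cell w s ⌊(2:ℝ) ^ s * x⌋ : ℝ) + 1}

/-! ## Elementary pieces (no hypotheses) -/

/-- SC (scaling). (1) `sh w n i` is a sign array; (2) on `J n i` the function is its chord plus a copy
of `tak (sh w n i)`: for `t ∈ [0,1)` (indeed for all `t`) `tak (fun m => w (n+m)) (t+i) = tak (sh w n i) t`,
because `⌊2^m (t+i)⌋ = ⌊2^m t⌋ + 2^m i` and `phi` has period 1; then use `R109.GT.tak_eq`;
(3) slopes add: induction on `m` (`(j + 2^(m+1) i)/2 = j/2 + 2^m i`, same parity as `j`). -/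
def S_SC : Prop := ∀ w : ℕ → ℤ → ℤ, Sgn w → ∀ (n : ℕ) (i : ℤ), Sgn (sh w n i) ∧
  (∀ x : ℝ, x ∈ J n i → (2:ℝ) ^ n * tak w x =
    val w n i + slope w n i * ((2:ℝ) ^ n * x - i) + tak (sh w n i) ((2:ℝ) ^ n * x - i)) ∧
  ∀ (m : ℕ) (j : ℤ), 0 ≤ j → j < 2 ^ m →
    slope w (n + m) (j + 2 ^ m * i) = slope w n i + slope (sh w n i) m j

/-- HER (heredity), from SC. For `slope w n i = 0`, `0 ≤ i < 2^n` and measurable `E`:
`occ (sh w n i) E = vol {t ∈ [0,1) : tak (sh w n i) t ∈ E} = 2^n vol {x ∈ J n i : 2^n tak w x - val w n i ∈ E}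
≤ 2^n occ w {y : 2^n y - val ∈ E} ≤ 2^n D vol {y : 2^n y - val ∈ E} = D vol E`. -/
def S_HER : Prop := ∀ (w : ℕ → ℤ → ℤ) (D : ℝ), Sgn w → Bd w D → ∀ (n : ℕ) (i : ℤ), i ∈ ivs n →
  slope w n i = 0 → Bd (sh w n i) D

/-- CPT (compactness of the set of sign arrays): Tychonoff, `ℕ → ℤ → {1,-1}` is compact and
metrizable, hence sequentially compact (or a diagonal argument); convergence in a discrete space is
eventual equality. -/
def S_CPT : Prop := ∀ w : ℕ → ℕ → ℤ → ℤ, (∀ k, Sgn (w k)) →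
  ∃ φ : ℕ → ℕ, StrictMono φ ∧ ∃ v : ℕ → ℤ → ℤ, Sgn v ∧
    ∀ (m : ℕ) (j : ℤ), ∀ᶠ k in atTop, w (φ k) m j = v m j

/-- FAT (Fatou). `tak (w k) t → tak v t` for all `t` (dominated convergence for series,
`R109.GT.term_bound`), so the indicator of `{t : tak v t ∈ (a,b)}` is at most the liminf of the
indicators of `{t : tak (w k) t ∈ [a,b]}`; `lintegral_liminf_le`. -/
def S_FAT : Prop := ∀ (w : ℕ → ℕ → ℤ → ℤ) (v : ℕ → ℤ → ℤ), (∀ k, Sgn (w k)) → Sgn v →
  (∀ (m : ℕ) (j : ℤ), ∀ᶠ k in atTop, w k m j = v m j) →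
  ∀ a b : ℝ, occ v (Ioo a b) ≤ liminf (fun k => occ (w k) (Icc a b)) atTop

/-- BDC. A finite measure with `occ v (a,b) ≤ D (b-a)` for all rational `a < b` is `≤ D vol`
(open sets are countable disjoint unions of open intervals, or the definition of Lebesgue measure by
covers with intervals; outer regularity). -/
def S_BDC : Prop := ∀ (v : ℕ → ℤ → ℤ) (D : ℝ), Sgn v → 0 ≤ D →
  (∀ a b : ℚ, a < b → occ v (Ioo (a:ℝ) b) ≤ ENNReal.ofReal (D * ((b:ℝ) - a))) → Bd v D

/-- HIT (return to slope zero). The slopes over a point of `J N i` form a simple random walk from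
`k = slope w N i`: the two halves of an interval of slope `k` have slopes `k + 1`, `k - 1`. If there is
no zero at the levels `N..N+T` then either `|S|` reaches `b` before `0` (fraction `≤ |k|/b`: induction on
`T`, `k/b` is harmonic), or `0 < |S| < b` for the levels `N..N+T` (fraction `q_T ≤ |k| b/(T+1)`:
`q` decreases in `T` and `∑_{j ≤ T} q_j(k) ≤ k (b - k)` by induction on `T`, as
`1 + ((k-1)(b-k+1) + (k+1)(b-k-1))/2 = k (b - k)`). It is convenient to count the intervals of level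
`N + T` in `J N i`. -/
def S_HIT : Prop := ∀ w : ℕ → ℤ → ℤ, Sgn w → ∀ (N T b : ℕ) (i : ℤ), 1 ≤ T → 1 ≤ b →
  volume {x : ℝ | x ∈ J N i ∧ ∀ m, N ≤ m → m ≤ N + T → S w m x ≠ 0} ≤
    ENNReal.ofReal ((|(slope w N i : ℝ)| / b + |(slope w N i : ℝ)| * b / T) / 2 ^ N)

/-- REC, from HIT: almost every point of `[0,1)` has slope zero at infinitely many levels (for every
`N` sum HIT over `i ∈ [0,2^N)` and let `T → ∞`, then `b → ∞`). -/
def S_REC : Prop := ∀ w : ℕ → ℤ → ℤ, Sgn w → volume (Ico (0:ℝ) 1 \ Z w) = 0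

/-- DSC (descendants of chords). If the chord of `J n i` crosses the cell `q` and `q' / 2^m = q`, then
some descendant `i'` of `i` (`i' / 2^m = i`) has a chord of level `n + m` which crosses `q'`. Induction
on `m`; `m = 1`: in units `2^(-n-1)` the left child goes from `2 val` to `2 val + slope + w`, the right
one from there to `2 val + 2 slope`, and `slope ± w` has the sign of `slope ≠ 0` or is zero. -/
def S_DSC : Prop := ∀ w : ℕ → ℤ → ℤ, Sgn w → ∀ (n m : ℕ) (i q q' : ℤ), Cr w n i q →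
  q' / 2 ^ m = q → ∃ i', i' / 2 ^ m = i ∧ Cr w (n + m) i' q'

/-- UPR. Put `Φ_T(k)` for the sum of `|slope|` over the `2^T` descendants (of depth `T`) of an interval
of slope `k` for which some slope on the way (from the interval itself on) has absolute value `≥ l`.
Then `Φ_T(k) ≤ 2^T (k^2 + T)/l` by induction on `T`: if `|k| < l` use
`((k+1)^2 + (k-1)^2)/2 + T - 1 = k^2 + T`; if `|k| ≥ l` all descendants count, the mean of the squares
of their slopes is `k^2 + T`, and `|a| ≤ (a^2/l + l)/2`, `l ≤ k^2/l`. Here `k = 0`, `T = M`. -/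
def S_UPR : Prop := ∀ w : ℕ → ℤ → ℤ, Sgn w → ∀ (M : ℕ) (l : ℝ), 0 < l →
  ∑ i ∈ (ivs M).filter (fun i => ∃ s, s ≤ M ∧ l ≤ |(slope w s (i / 2 ^ (M - s)) : ℝ)|),
    |(slope w M i : ℝ)| ≤ 2 ^ M * (M / l)

/-- PZ (Paley-Zygmund). `∑ slope^2 = n 2^n`, `∑ slope^4 = (3 n^2 - 2 n) 2^n` over `ivs n` (induction), so
`∑_{4 slope^2 ≥ n} slope^2 ≥ (3/4) n 2^n` and Cauchy-Schwarz. -/
def S_PZ : Prop := ∀ w : ℕ → ℤ → ℤ, Sgn w → ∀ n : ℕ, 1 ≤ n →
  3 * 2 ^ n ≤ 16 * ((ivs n).filter (fun i => (n:ℤ) ≤ 4 * (slope w n i) ^ 2)).card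

/-- UPI. An interval of slope zero: the function is in the cell on the side of its sign at least on one
eighth of the interval. By SC it is enough to treat `g = tak v`, `v 0 0 = 1` (or `-1`: symmetric,
`R109.GT.PB.tak_neg`): on one of the eight intervals of level 3 the chord of the third partial sum is
in `[1/8, 1/2]` (left half: slope 1; its child of slope 2 goes from 0 to 1/2; the upper child of this one
goes from 3/8 or from 1/8 to 1/2), and the rest is at most `1/8` (`R109.GT.bound`, `tak_eq`). -/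
def S_UPI : Prop := ∀ w : ℕ → ℤ → ℤ, Sgn w → ∀ (n : ℕ) (i : ℤ), slope w n i = 0 →
  ENNReal.ofReal (1 / 8 / 2 ^ n) ≤ volume {x : ℝ | x ∈ J n i ∧
    (cell w n i : ℝ) ≤ 2 ^ n * tak w x ∧ 2 ^ n * tak w x ≤ (cell w n i : ℝ) + 1}

/-- STP (steep chords are nearly uniform). Choose `m` with `2 / 2^m ≤ η r / 2` and `K ≥ 2 m / η`, `K > m`.
Let `k = slope w n i`, `|k| > K`. On `J n i` the partial sum `part w (n+m)` is continuous, piecewise
linear with slopes of the sign of `k` and absolute values in `[|k| - m, |k| + m]`, from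
`val/2^n` to `(val + slope)/2^n`; so it takes all values of `[a + 2^(-m), b - 2^(-m)]/2^n`
and it is `(|k|+m)`-Lipschitz: the preimage of this interval in `J n i` has length at least
`(b - a - 2/2^m)/2^n/(|k| + m) ≥ (1-η)(b-a)/(2^n |k|)`; and `|tak w - part w (n+m)| ≤ 2^(-n-m)`
(`R109.GT.split`, `bound`). -/
def S_STP : Prop := ∀ η r : ℝ, 0 < η → 0 < r → ∃ K : ℕ, ∀ w : ℕ → ℤ → ℤ, Sgn w →
  ∀ (n : ℕ) (i q : ℤ), (K:ℤ) < |slope w n i| → Cr w n i q → ∀ a b : ℝ, (q:ℝ) ≤ a → a + r ≤ b →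
    b ≤ (q:ℝ) + 1 →
    ENNReal.ofReal ((1 - η) * (b - a) / |(slope w n i : ℝ)| / 2 ^ n) ≤
      volume {x : ℝ | x ∈ J n i ∧ a ≤ 2 ^ n * tak w x ∧ 2 ^ n * tak w x ≤ b}

/-- CNT. The intervals of level `n` with slope of absolute value `≤ K` whose chords cross the cell `q`
are mapped by `tak w` into `[(q - K - 2)/2^n, (q + K + 3)/2^n]`; compare `occ w` of this interval,
`≤ D (2K+5)/2^n`, with the total length of the intervals. -/
def S_CNT : Prop := ∀ (w : ℕ → ℤ → ℤ) (D : ℝ), Sgn w → 0 ≤ D → Bd w D → ∀ (n K : ℕ) (q : ℤ),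
  (((ivs n).filter (fun i => Cr w n i q ∧ |slope w n i| ≤ (K:ℤ))).card : ℝ) ≤ D * (2 * K + 5)

/-- BAD. Outside a set of measure `≤ 12 D/2^m` the number `2^n tak w x` has distance `> 2/2^m` from the
integers (`|tak w| ≤ 1`, at most `3 * 2^n` integers, `occ w ≤ D vol`). For the other `x` of the set, let
`x ∈ J n i`, `k = slope w n i`, `|k| ≥ √n/2 ≥ 2m`, `q = ⌊2^n tak w x⌋`. Then `2^n part w (n+m) x` is
within `2^(-m)` of `2^n tak w x`, so it is in the interior of the cell `q`; it is between `val w n i` and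
`val w n i + k`, so `Cr w n i q`. On `J n i` the function `part w (n+m)` is piecewise linear and
monotone with slopes of absolute value `≥ |k| - m ≥ |k|/2`, so the `x ∈ J n i` of this kind for given
`q` have measure `≤ (1/2^n)/(|k|/2) ≤ 4/(2^n √n)`. There are at most `2 * 2^n` cells `q` in `[-1,1)`
(add one if convenient, the constant has room) and for each bad `q` fewer than `c √n` intervals `i`: total
`≤ 2 * 2^n * c √n * 4/(2^n √n) = 8 c`. -/
def S_BAD : Prop := ∀ (w : ℕ → ℤ → ℤ) (D c : ℝ) (m n : ℕ), Sgn w → Bd w D → 1 / 2 ≤ D → 0 < c →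
  1 ≤ n → 16 * m ^ 2 ≤ n →
  volume {x : ℝ | x ∈ Ico (0:ℝ) 1 ∧ (n:ℤ) ≤ 4 * (S w n x) ^ 2 ∧
    ((Nc w n ⌊(2:ℝ) ^ n * tak w x⌋ : ℝ) < c * √n ∨
      |(2:ℝ) ^ n * tak w x - round ((2:ℝ) ^ n * tak w x)| ≤ 2 / 2 ^ m)} ≤
    ENNReal.ofReal (16 * c + 16 * D / 2 ^ m)

/-- NMON, from DSC: for a point `x` of `J s i`, `slope w s i = 0`, `n ≤ s`, `n + m ≤ s`, whose value
`2^n tak w x` has distance `> 2/2^m` from the integers, the cell of `(s, i)` is contained in the
cell `⌊2^n tak w x⌋` of level `n` (since `|2^s tak w x - val w s i| ≤ 1` by `tak_eq`, `bound`) and DSC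
gives an injection of the chords over the latter into those over the former. -/
def S_NMON : Prop := ∀ w : ℕ → ℤ → ℤ, Sgn w → ∀ (n m s : ℕ) (x : ℝ), x ∈ Ico (0:ℝ) 1 →
  n + m ≤ s → S w s x = 0 →
  2 / 2 ^ m < |(2:ℝ) ^ n * tak w x - round ((2:ℝ) ^ n * tak w x)| →
  Nc w n ⌊(2:ℝ) ^ n * tak w x⌋ ≤ Nc w s (cell w s ⌊(2:ℝ) ^ s * x⌋)

/-! ## Pieces with hypotheses -/

/-- EXT, from CPT, FAT, BDC. `D0 = inf {D : ∃ w, Sgn w ∧ Bd w D}`; `D ≥ 1/2` for all such `D` because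
`occ w [-1,1] = 1`; the infimum is attained: take `w k` with `Bd (w k) (D k)`, `D k → D0`, and the
limit `v` of a subsequence. -/
def S_EXT : Prop := (∃ w D, Sgn w ∧ Bd w D) → ∃ D0, 1 / 2 ≤ D0 ∧ Ext D0

/-- DIF, from SC, CPT, FAT, BDC. Let `ν = occ w`. By Lebesgue differentiation
(`IsUnifLocDoublingMeasure.vitaliFamily volume K`, `VitaliFamily.ae_tendsto_rnDeriv`,
`IsUnifLocDoublingMeasure.tendsto_closedBall_filterAt`) for a.e. `y` there is `h < ∞` such that for all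
rational `a < b` and all sequences `c_j ∈ ℝ`, `ε_j → 0+` with `|y - c_j| ≤ ε_j`:
`ν [c_j + ε_j a, c_j + ε_j b] / (ε_j (b - a)) → h`. Take such a `y = tak w x`, `x ∈ Z w ∩ [0,1)`; let `n_j` be
the levels of slope zero of `x`, `i_j = ⌊2^{n_j} x⌋`, `ε_j = 2^{-n_j}`, `c_j = val w n_j i_j/2^{n_j}`
(`|y - c_j| ≤ ε_j`). By SC `occ (sh w n_j i_j) [a,b] ≤ ν [c_j + ε_j a, c_j + ε_j b]/ε_j → h (b - a)`. Take a
convergent subsequence of the arrays `sh w n_j i_j` (CPT); FAT and BDC give `Bd v h` for the limit. -/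
def S_DIF : Prop := ∀ w : ℕ → ℤ → ℤ, Sgn w → volume (tak w '' (Z w ∩ Ico 0 1)) ≠ 0 →
  ∃ v D, Sgn v ∧ Bd v D

/-- DEN, from SC, BDC, REC. Suppose `occ w [a',b'] ≤ (D0 - η)(b' - a')` for all `a < a' < b' < b`. By REC
there is `x ∈ Z w ∩ [0,1)` with `tak w x ∈ (a,b)`. Take a large level `n` of slope zero of `x`,
`i = ⌊2^n x⌋`, `v = sh w n i`, `V = val w n i`. For `-1 ≤ p < q ≤ 1` (`occ v` is concentrated on
`[-1,1]`) `occ v (p,q) = 2^n vol {x' ∈ J n i : 2^n tak w x' - V ∈ (p,q)} ≤ 2^n occ w [(V+p)/2^n, (V+q)/2^n]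
≤ (D0 - η)(q - p)`, so `Bd v (D0 - η)` by BDC, which contradicts the minimality of `D0`. -/
def S_DEN : Prop := ∀ D0, Ext D0 → ∀ w : ℕ → ℤ → ℤ, Sgn w → Bd w D0 → ∀ a b : ℝ,
  0 < occ w (Ioo a b) → ∀ η, 0 < η → η < D0 → ∃ a' b', a < a' ∧ a' < b' ∧ b' < b ∧
    ENNReal.ofReal ((D0 - η) * (b' - a')) < occ w (Icc a' b')

/-- UNI, from CPT, FAT, BDC, DEN (uniform version of DEN on `(1/8,3/8)`). Otherwise there are `w k`
(`Bd (w k) D0`, first sign `1`) with `occ (w k) [a,b] < (D0 - η)(b - a)` for all `[a,b] ⊆ [1/8,3/8]`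
with `b - a ≥ 1/(k+1)`. For the limit `v` of a subsequence: `Sgn v`, `Bd v D0`, `v 0 0 = 1`, and
`occ v (a,b) ≤ (D0 - η)(b - a)` for all `1/8 ≤ a < b ≤ 3/8`, hence
`occ v [a',b'] ≤ (D0-η)(b'-a')` for `1/8 < a' < b' < 3/8`. But `occ v (1/8,3/8) > 0`, since `tak v` is
continuous, `tak v 0 = 0`, `tak v (1/2) = 1/2`: contradiction to DEN. -/
def S_UNI : Prop := ∀ D0, Ext D0 → ∀ η, 0 < η → η < D0 → ∃ r : ℝ, 0 < r ∧
  ∀ w : ℕ → ℤ → ℤ, Sgn w → Bd w D0 → w 0 0 = 1 → ∃ a b : ℝ, 1 / 8 ≤ a ∧ a + r ≤ b ∧ b ≤ 3 / 8 ∧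
    ENNReal.ofReal ((D0 - η) * (b - a)) ≤ occ w (Icc a b)

/-- STR, from SC, HER, UNI, STP. Let `0 < η' ≤ 1/2`, `2 η' ≤ η`, `η' < D0`, `r` from UNI, `K` from STP for
`η', r`. Let `slope w n i = 0`, `q = cell w n i`. By HER `v = sh w n i` satisfies `Bd v D0`. If
`w n i = 1` then `v 0 0 = 1` and UNI gives `[a,b] ⊆ [1/8,3/8]`; put `B = [q + a, q + b]` (in units
`2^(-n)`); if `w n i = -1` use `-v` (`R109.GT.PB.tak_neg`, `sgn_neg`; `occ (-v)` is the mirror
image of `occ v`, so `Bd (-v) D0`) and `B = [q + 1 - b, q + 1 - a]`. In both cases `J n i`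
contributes at least `(D0 - η')(b - a)/2^n` to `occ w (B/2^n)` and every chord with `|slope| > K` over
`q` at least `(1 - η')(b - a)/|slope|/2^n` (STP; different intervals are disjoint). The sum is at
most `occ w (B/2^n) ≤ D0 (b - a)/2^n`. So `(1 - η') ∑ 1/|slope| ≤ η'`. -/
def S_STR : Prop := ∀ D0, Ext D0 → ∀ w : ℕ → ℤ → ℤ, Sgn w → Bd w D0 → ∀ η, 0 < η →
  ∃ K : ℕ, ∀ (n : ℕ) (i : ℤ), i ∈ ivs n → slope w n i = 0 →
    ∑ i' ∈ (ivs n).filter (fun i' => Cr w n i' (cell w n i) ∧ (K:ℤ) < |slope w n i'|),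
      1 / |(slope w n i' : ℝ)| ≤ η

/-- GOOD, from HIT, PZ, BAD, NMON. Choose `c` and `m` with `16 c ≤ 1/32`, `16 D/2^m ≤ 1/32`, and `L` large
(`L = 2^14` is enough). By PZ and BAD the set of the `x ∈ [0,1)` with `4 S_n^2 ≥ n`,
`Nc w n ⌊2^n tak w x⌋ ≥ c √n` and `2^n tak w x` farther than `2/2^m` from the integers has measure
`≥ 3/16 - 1/16`. By HIT (`N = n + m`, `T = L n - n - m`, `b = ⌈√(L n)⌉`), summed over `ivs (n+m)` with
`∑ |slope| ≤ 2^(n+m) √(n+m)` (Cauchy-Schwarz and `∑ slope^2 = N 2^N`), the points without slope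
zero at the levels `n+m..L n` have measure `≤ √(n+m) (1/b + b/T) ≤ 1/16`. For the remaining points
take the first level `s ≥ n + m` of slope zero and apply NMON. -/
def S_GOOD : Prop := ∀ D : ℝ, 1 / 2 ≤ D → ∃ c : ℝ, 0 < c ∧ ∃ m L n1 : ℕ, 1 ≤ L ∧
  ∀ w : ℕ → ℤ → ℤ, Sgn w → Bd w D → ∀ n : ℕ, n1 ≤ n →
    ENNReal.ofReal (1 / 16) ≤ volume (Gs w (n + m) (L * n) (c * √n))

/-- VOL, from UPI. `Gs` is the disjoint union of intervals `J s i` (`i ∈ ivs s`; the condition depends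
on the interval only, as all earlier slopes are determined by it), and by UPI on each of them
`tak w x` is in the cell, which is a part of `Vs`, on at least one eighth. `Vs` is a finite union of
closed intervals. So `(1/8) vol Gs ≤ occ w Vs ≤ D vol Vs`. -/
def S_VOL : Prop := ∀ (w : ℕ → ℤ → ℤ) (D : ℝ), Sgn w → 0 < D → Bd w D → ∀ (n0 M : ℕ) (r : ℝ),
  ENNReal.ofReal (1 / 8) * volume (Gs w n0 M r) ≤ ENNReal.ofReal D * volume (Vs w n0 M r)

/-- FY, from STR, CNT, DSC, UPR. Let `η = c/(4 A)`, `K` from STR, `l = A √n`, and `n` so large that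
`D0 (2K+5) ≤ (c/4) √n`. Let `y ∈ Vs`, not dyadic, with `x`, `s`, `i = ⌊2^s x⌋`, `q = cell w s i = ⌊2^s y⌋`.
At least `c √n` chords of level `s` cross `q`; at most `(c/4) √n` of them have slopes `≤ K` (CNT),
at most `η l = (c/4) √n` have slopes in `(K, l)` (STR), so at least `(c/2) √n` have slopes `≥ l`. By
DSC (`q' = ⌊2^M y⌋`, `M = L n`) their descendants give at least `(c/2) √n` intervals `i'` of level
`M` with `Cr w M i' ⌊2^M y⌋` and `l ≤ |slope w s (i'/2^(M-s))|`. The integral over `y` of the number of these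
`i'` is at most `∑ |slope w M i'|/2^M ≤ M/l` (UPR). So `(c/2) √n vol Vs ≤ L n/(A √n) = (L/A) √n`. -/
def S_FY : Prop := ∀ D0, Ext D0 → ∀ w : ℕ → ℤ → ℤ, Sgn w → Bd w D0 →
  ∀ (c A : ℝ) (m L : ℕ), 0 < c → 0 < A → 1 ≤ L → ∃ n1 : ℕ, ∀ n : ℕ, n1 ≤ n →
    volume (Vs w (n + m) (L * n) (c * √n)) ≤ ENNReal.ofReal (2 * L / (c * A))

/-- FIN: the images of the sets `Z w` are null sets. -/
def S_FIN : Prop := ∀ w : ℕ → ℤ → ℤ, Sgn w → volume (tak w '' (Z w ∩ Ico 0 1)) = 0

end Run7.h608.TK
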