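import Pool.Agent.Run7.h608.TK.Iface

set_option autoImplicit false

open MeasureTheory Set Filter Topology
open scoped ENNReal
open R109.GT

namespace Run7.h608.TK

theorem tak_sh (w : ℕ → ℤ → ℤ) (n : ℕ) (i : ℤ) (t : ℝ) :
    tak (fun m => w (n + m)) (t + i) = tak (sh w n i) t := by
  unfold tak
  refine tsum_congr fun m => ?_
  have e : (2:ℝ) ^ m * (t + i) = 2 ^ m * t + ((2 ^ m * i : ℤ) : ℝ) := by
    push_cast; ring
  have hf : ⌊(2:ℝ) ^ m * (t + i)⌋ = ⌊(2:ℝ) ^ m * t⌋ + 2 ^ m * i := by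
    rw [e, Int.floor_add_intCast]
  have hp : phi ((2:ℝ) ^ m * (t + i)) = phi ((2:ℝ) ^ m * t) := by
    rw [e]
    unfold phi
    rw [round_add_intCast]
    push_cast
    congr 1
    ring
  rw [hf, hp]
  rfl

theorem sgn_sh (w : ℕ → ℤ → ℤ) (hw : Sgn w) (n : ℕ) (i : ℤ) : Sgn (sh w n i) :=
  fun _ _ => hw _ _

theorem tak_J (w : ℕ → ℤ → ℤ) (hw : Sgn w) (n : ℕ) (i : ℤ) (x : ℝ) (hx : x ∈ J n i) :
    (2:ℝ) ^ n * tak w x =
    val w n i + slope w n i * ((2:ℝ) ^ n * x - i) + tak (sh w n i) ((2:ℝ) ^ n * x - i) := by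
  have hx' : ⌊(2:ℝ) ^ n * x⌋ = i := hx
  have h := tak_eq w hw n x
  have hS : S w n x = slope w n i := by unfold S; rw [hx']
  rw [hS, hx'] at h
  have h2 := tak_sh w n i ((2:ℝ) ^ n * x - i)
  rw [sub_add_cancel] at h2
  rw [h2] at h
  rw [h]
  field_simp

theorem slope_sh (w : ℕ → ℤ → ℤ) (n : ℕ) (i : ℤ) : ∀ (m : ℕ) (j : ℤ), 0 ≤ j → j < 2 ^ m →
    slope w (n + m) (j + 2 ^ m * i) = slope w n i + slope (sh w n i) m j := by
  intro m
  induction m with
  | zero =>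
    intro j h0 h1
    have : j = 0 := by
      simp at h1
      omega
    subst this
    simp [R109.GT.slope]
  | succ m ih =>
    intro j h0 h1
    have e1 : (j + 2 ^ (m + 1) * i) / 2 = j / 2 + 2 ^ m * i := by
      rw [pow_succ, show (2:ℤ) ^ m * 2 * i = (2 ^ m * i) * 2 by ring,
        Int.add_mul_ediv_right _ _ (by norm_num)]
    have e2 : (j + 2 ^ (m + 1) * i) % 2 = j % 2 := by
      rw [pow_succ, show (2:ℤ) ^ m * 2 * i = (2 ^ m * i) * 2 by ring, Int.add_mul_emod_self_right]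
    have h2 : j / 2 < 2 ^ m := by
      rw [pow_succ] at h1
      omega
    rw [← add_assoc, R109.GT.slope, R109.GT.slope, e1, e2, ih (j / 2) (by omega) h2]
    unfold sh
    ring

theorem t_SC : S_SC := fun w hw n i =>
  ⟨sgn_sh w hw n i, fun x hx => tak_J w hw n i x hx, slope_sh w n i⟩

end Run7.h608.TK
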